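import Pool.Agent.H87.EBK.Stmts3

/-! Board ebt, row WRT (helper72): a common partner outside a finite set, in a prescribed interval. -/

set_option autoImplicit false

namespace Pool.EBK

theorem wrt_low (k : ℤ) (F : Finset ℚ) : ∃ n : ℕ, ∀ f ∈ F, k - n < v f := by
  refine ⟨∑ f ∈ F, (k - v f).natAbs + 1, ?_⟩
  intro f hf
  have h1 : (k - v f).natAbs ≤ ∑ f ∈ F, (k - v f).natAbs :=
    Finset.single_le_sum (f := fun f => (k - v f).natAbs) (fun _ _ => Nat.zero_le _) hf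
  have h3 : k - v f ≤ ((k - v f).natAbs : ℤ) := Int.le_natAbs
  have h4 : ((k - v f).natAbs : ℤ) ≤ ((∑ f ∈ F, (k - v f).natAbs : ℕ) : ℤ) := by
    exact_mod_cast h1
  omega

theorem wrt (hSTRW : STRW) (hDNLW : DNLW) : WRT := by
  intro a b y1 y2 F hW hy1 hy2
  obtain ⟨k, hka, hkb, hk⟩ := hSTRW a b hW
  obtain ⟨n, hn⟩ := wrt_low k F
  obtain ⟨d, hd, hvd⟩ := hk n
  have hda : v d < v a := by omega
  have hdb : v d < v b := by omega
  obtain ⟨c, hc, hvc, hc1, hc2⟩ := hDNLW a b d y1 y2 hW hd hda hdb hy1 hy2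
  refine ⟨c, ?_, hc1, hc2, hc⟩
  intro hF
  have := hn c hF
  omega

end Pool.EBK
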